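import Pool.Agent.W217.BE.Stm

/-!
BE-BASE: the base case over a Noetherian ring from the local base case and descent.
-/

set_option autoImplicit false

namespace Pool.Agent.W673.BEBASE

open Pool.Agent.W217.BE

theorem chi_ne_zero_iff {A : Type} [CommRing A] (p : Ideal A) [p.IsPrime] (s : A) :
    chi p s ≠ 0 ↔ s ∉ p := by
  unfold chi
  rw [RingHom.comp_apply, Ne, IsLocalRing.residue_eq_zero_iff,
    IsLocalization.AtPrime.to_map_mem_maximal_iff (Localization.AtPrime p) p s]

theorem main : LOC → DESC → BASE := by
  intro hLOC hDESC A _ _ p hp N _ _ _ c hc hq hNZ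
  apply hDESC A p N _
  have hNoe : IsNoetherianRing (Localization.AtPrime p) :=
    IsLocalization.isNoetherianRing p.primeCompl (Localization.AtPrime p) inferInstance
  have hfin : Module.Finite (Localization.AtPrime p) (LocalizedModule p.primeCompl N) :=
    inferInstanceAs (Module.Finite (Localization p.primeCompl) (LocalizedModule p.primeCompl N))
  have hnt : Nontrivial (LocalizedModule p.primeCompl N) := by
    obtain ⟨x, hx⟩ := hNZ
    refine ⟨LocalizedModule.mkLinearMap p.primeCompl N x, 0, ?_⟩
    intro h
    rw [IsLocalizedModule.eq_zero_iff p.primeCompl] at h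
    obtain ⟨s, hs⟩ := h
    exact hx (s : A) ((chi_ne_zero_iff p _).mpr s.2) hs
  apply hLOC (Localization.AtPrime p) (LocalizedModule p.primeCompl N) c hc
  intro q' hq' hann
  have hcomap : (Ideal.comap (algebraMap A (Localization.AtPrime p)) q').IsPrime :=
    Ideal.comap_isPrime _ _
  have h1 : Module.annihilator A N ≤ Ideal.comap (algebraMap A (Localization.AtPrime p)) q' := by
    intro a ha
    rw [Ideal.mem_comap]
    apply hann
    rw [Module.mem_annihilator] at ha ⊢
    intro m
    induction m using LocalizedModule.induction_on with
    | _ m s =>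
      rw [algebraMap_smul, LocalizedModule.smul'_mk, ha, LocalizedModule.zero_mk]
  have h2 := hq _ hcomap h1
  have h3 : (Ideal.comap (algebraMap A (Localization.AtPrime p)) q').height = q'.height :=
    IsLocalization.height_under p.primeCompl q'
  rw [h3] at h2
  exact h2

end Pool.Agent.W673.BEBASE
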